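import Pool.Agent.helper20.SOL.SpecN

/-!
# Project sol (MP_cad530_co): row EN
-/

set_option autoImplicit false

namespace Pool.Agent.SOL

open Pool.Agent.helper54.SOG Finset

open scoped BigOperators

theorem EN_dbl {A : Set (Vec 8)} {B : Set (Vec 8)} (h : ∀ x : Vec 8, x ∈ A ↔ ∃ y ∈ B, x = y + y) :
    A.ncard = B.ncard := by
  have e : A = (fun y : Vec 8 => y + y) '' B := by
    ext x
    rw [h x]
    constructor
    · rintro ⟨y, hy, rfl⟩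
      exact ⟨y, hy, rfl⟩
    · rintro ⟨y, hy, rfl⟩
      exact ⟨y, hy, rfl⟩
  rw [e]
  apply Set.ncard_image_of_injective
  intro y z hyz
  funext i
  have h1 : y i + y i = z i + z i := congrFun hyz i
  omega

theorem EN (hELB : ELB_stmt) (hME8a : ME8a_stmt) (hME8b : ME8b_stmt) (hME8c : ME8c_stmt) (hME8d : ME8d_stmt)
    (hME7a : ME7a_stmt) (hME7b : ME7b_stmt) (hME7c : ME7c_stmt) (hME6a : ME6a_stmt) (hME6b : ME6b_stmt)
    (hCE8 : CE8_stmt) (hCE7 : CE7_stmt) (hCE6 : CE6_stmt) (hLE87 : LE87_stmt) (hLE76 : LE76_stmt) : EN_stmt := by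
  obtain ⟨_, _, h3, _, _⟩ := hELB
  have e8 : ∀ k : ℕ, (∀ x ∈ XE8 k, x ∈ VE R8 k) → VE R8 k = XE8 k := fun k h =>
    Set.Subset.antisymm (fun x hx => (h3 k x).1 hx) h
  have e7 : ∀ k : ℕ, (∀ x ∈ XE7 k, x ∈ VE R7 k) → VE R7 k = XE7 k := fun k h =>
    Set.Subset.antisymm (fun x hx => (h3 k x).2.1 hx) h
  have e6 : ∀ k : ℕ, (∀ x ∈ XE6 k, x ∈ VE R6 k) → VE R6 k = XE6 k := fun k h =>
    Set.Subset.antisymm (fun x hx => (h3 k x).2.2 hx) h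
  obtain ⟨a1, a2, a3, a4, a5, a6⟩ := hCE8
  obtain ⟨b1, b2, b3, b4, b5, b6⟩ := hCE7
  obtain ⟨c1, c2, c3⟩ := hCE6
  refine ⟨⟨?_, ?_, ?_, ?_, ?_, ?_, hLE87, ?_⟩, ⟨?_, ?_, ?_, ?_, ?_, hLE76, ?_⟩, ?_, ?_, ?_, ?_⟩
  · rw [e8 1 (hME8a 1 (by norm_num) (by norm_num)), a1]
  · rw [e8 2 (hME8a 2 (by norm_num) (by norm_num)), a2]
  · rw [e8 3 (hME8a 3 (by norm_num) (by norm_num)), a3]
  · rw [e8 4 (hME8b 4 (by norm_num) (by norm_num)), a4]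
  · rw [e8 5 (hME8b 5 (by norm_num) (by norm_num)), a5]
  · rw [e8 6 hME8c, a6]
  · rw [EN_dbl hME8d, a2]
  · rw [e7 1 (hME7a 1 (by norm_num) (by norm_num)), b1]
  · rw [e7 2 (hME7a 2 (by norm_num) (by norm_num)), b2]
  · rw [e7 3 (hME7a 3 (by norm_num) (by norm_num)), b3]
  · rw [e7 4 hME7b, b4]
  · rw [e7 5 hME7c, b5]
  · have hfin : (XE7 6).Finite := Set.finite_of_ncard_ne_zero (by rw [b6]; norm_num)
    rw [← b6]
    exact Set.ncard_le_ncard (fun x hx => (h3 6 x).2.1 hx) hfin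
  · rw [e6 1 (hME6a 1 (by norm_num) (by norm_num)), c1]
  · rw [e6 2 (hME6a 2 (by norm_num) (by norm_num)), c2]
  · rw [e6 3 (hME6a 3 (by norm_num) (by norm_num)), c3]
  · rw [EN_dbl hME6b.1]
    exact c1

end Pool.Agent.SOL
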