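import Pool.Agent.helper20.SOL.SpecE

/-!
# Row sol:LLE76 (MP_cad530_co): a lower bound for the number of vertices of `Γ(E_7, 6)`, light version of helper8/SOL/LE76.lean
-/

set_option autoImplicit false

namespace Pool.Agent.SOL

open Pool.Agent.helper54.SOG Finset

open scoped BigOperators

/-- decidable form of membership in the roots -/
def LLE76_R (x : Vec 8) : Prop :=
  (∀ i j, x i % 2 = x j % 2) ∧ (∑ i, x i) % 4 = 0 ∧ x 6 + x 7 = 0 ∧ (∑ i, x i * x i) = 8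

instance (x : Vec 8) : Decidable (LLE76_R x) := by
  unfold LLE76_R
  infer_instance

theorem LLE76_mem {x : Vec 8} (h : LLE76_R x) : x ∈ R7 ∧ dp x x = 8 := by
  obtain ⟨h1, h2, h3, h4⟩ := h
  refine ⟨⟨⟨h1, h2⟩, h3, ?_⟩, h4⟩
  rw [show dp x x = 8 from h4]
  norm_num

/-- a list of orthogonal roots -/
def LLE76_L (L : List (Vec 8)) : Prop :=
  (∀ a ∈ L, LLE76_R a) ∧ L.Pairwise (fun a b => (∑ i, a i * b i) = 0)

instance (L : List (Vec 8)) : Decidable (LLE76_L L) := by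
  unfold LLE76_L
  infer_instance

theorem LLE76_VE (hCLQ : CLQ_stmt) (L : List (Vec 8)) (h : LLE76_L L) : L.sum ∈ VE R7 L.length :=
  hCLQ R7 L (fun a ha => LLE76_mem (h.1 a ha)) h.2

def LLE76_y1 : Vec 8 := ![5, 3, 3, 1, 1, -1, 1, -1]
def LLE76_y2 : Vec 8 := ![4, 4, 2, 2, 0, 0, 2, -2]
def LLE76_y3 : Vec 8 := ![3, 3, 3, 1, 1, 1, 3, -3]

def LLE76_L1 : List (Vec 8) := [![2,0,0,-2,0,0,0,0], ![0,2,0,0,2,0,0,0], ![0,0,2,0,0,-2,0,0],
  ![1,1,1,1,-1,1,-1,1], ![1,1,-1,1,-1,-1,1,-1], ![1,-1,1,1,1,1,1,-1]]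
def LLE76_L2 : List (Vec 8) := [![2,0,0,0,2,0,0,0], ![2,0,0,0,-2,0,0,0], ![0,2,0,0,0,2,0,0],
  ![0,2,0,0,0,-2,0,0], ![0,0,2,2,0,0,0,0], ![0,0,0,0,0,0,2,-2]]
def LLE76_L3 : List (Vec 8) := [![2,0,0,2,0,0,0,0], ![0,2,0,0,2,0,0,0], ![0,0,2,0,0,2,0,0],
  ![1,1,-1,-1,-1,1,1,-1], ![1,-1,1,-1,1,-1,1,-1], ![-1,1,1,1,-1,-1,1,-1]]

theorem LLE76_v1 (hCLQ : CLQ_stmt) : LLE76_y1 ∈ VE R7 6 := by
  have h := LLE76_VE hCLQ LLE76_L1 (by decide)
  have h2 : LLE76_L1.sum = LLE76_y1 := by decide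
  rwa [h2] at h

theorem LLE76_v2 (hCLQ : CLQ_stmt) : LLE76_y2 ∈ VE R7 6 := by
  have h := LLE76_VE hCLQ LLE76_L2 (by decide)
  have h2 : LLE76_L2.sum = LLE76_y2 := by decide
  rwa [h2] at h

theorem LLE76_v3 (hCLQ : CLQ_stmt) : LLE76_y3 ∈ VE R7 6 := by
  have h := LLE76_VE hCLQ LLE76_L3 (by decide)
  have h2 : LLE76_L3.sum = LLE76_y3 := by decide
  rwa [h2] at h

/-- the vector with given classes and signs -/
def LLE76_g (m : Fin 3 → ℤ) (a : ℤ) (v : Fin 6 → Fin 3) (e : Fin 6 → Bool) : Vec 8 :=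
  fun i => if h : i.val < 6 then (if e ⟨i.val, h⟩ then -1 else 1) * m (v ⟨i.val, h⟩)
    else if i.val = 6 then a else -a

theorem LLE76_cN (x : Vec 8) (w : ℤ) : cN 6 x w = ∑ j : Fin 6, if |x (Fin.castLE (by norm_num) j)| = w then 1 else 0 := by
  rw [cN, Finset.card_filter, Fin.sum_univ_eight, Fin.sum_univ_six]
  simp

theorem LLE76_count (v : Fin 6 → Fin 3) (f : Fin 3 → ℕ) :
    ∑ j, f (v j) = ∑ t, (univ.filter (fun j => v j = t)).card * f t := by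
  rw [← Finset.sum_fiberwise Finset.univ v (fun j => f (v j))]
  refine Finset.sum_congr rfl fun t _ => ?_
  rw [Finset.sum_congr rfl (fun j hj => by rw [(Finset.mem_filter.1 hj).2]), Finset.sum_const, smul_eq_mul]

/-- the maps with given fibre sizes -/
def LLE76_V (c : Fin 3 → ℕ) : Finset (Fin 6 → Fin 3) :=
  univ.filter (fun v => ∀ t, (univ.filter (fun j => v j = t)).card = c t)

/-- the sign patterns with an odd number of signs `-1` -/
def LLE76_E : Finset (Fin 6 → Bool) :=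
  univ.filter (fun e => (univ.filter (fun j => e j = true)).card % 2 = 1)

theorem LLE76_cN_g (m : Fin 3 → ℤ) (a : ℤ) (c : Fin 3 → ℕ) (v : Fin 6 → Fin 3) (hv : v ∈ LLE76_V c)
    (e : Fin 6 → Bool) (w : ℤ) : cN 6 (LLE76_g m a v e) w = ∑ t, c t * (if |m t| = w then 1 else 0) := by
  rw [LLE76_cN]
  have h1 : ∀ j : Fin 6, (if |LLE76_g m a v e (Fin.castLE (by norm_num) j)| = w then 1 else 0) =
      (fun t : Fin 3 => if |m t| = w then 1 else 0) (v j) := by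
    intro j
    have h2 : |LLE76_g m a v e (Fin.castLE (by norm_num) j)| = |m (v j)| := by
      rw [LLE76_g]
      have h3 : (Fin.castLE (by norm_num : 6 ≤ 8) j).val < 6 := j.2
      rw [dif_pos h3, abs_mul]
      have h4 : (⟨(Fin.castLE (by norm_num : 6 ≤ 8) j).val, h3⟩ : Fin 6) = j := rfl
      rw [h4]
      split_ifs <;> simp
    rw [h2]
  rw [Finset.sum_congr rfl (fun j _ => h1 j), LLE76_count v (fun t : Fin 3 => if |m t| = w then 1 else 0)]
  refine Finset.sum_congr rfl fun t _ => ?_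
  rw [(Finset.mem_filter.1 hv).2 t]

theorem LLE76_g_apply (m : Fin 3 → ℤ) (a : ℤ) (v : Fin 6 → Fin 3) (e : Fin 6 → Bool) (j : Fin 6) :
    LLE76_g m a v e (Fin.castLE (by norm_num) j) = (if e j then -1 else 1) * m (v j) := by
  rw [LLE76_g]
  have h3 : (Fin.castLE (by norm_num : 6 ≤ 8) j).val < 6 := j.2
  rw [dif_pos h3]
  rfl

theorem LLE76_g6 (m : Fin 3 → ℤ) (a : ℤ) (v : Fin 6 → Fin 3) (e : Fin 6 → Bool) :
    LLE76_g m a v e 6 = a := by
  rw [LLE76_g]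
  simp

theorem LLE76_g7 (m : Fin 3 → ℤ) (a : ℤ) (v : Fin 6 → Fin 3) (e : Fin 6 → Bool) :
    LLE76_g m a v e 7 = -a := by
  rw [LLE76_g]
  simp

theorem LLE76_cases (i : Fin 8) : (∃ j : Fin 6, i = Fin.castLE (by norm_num) j) ∨ i = 6 ∨ i = 7 := by
  revert i
  decide

theorem LLE76_last (m : Fin 3 → ℤ) (a : ℤ) (v : Fin 6 → Fin 3) (e : Fin 6 → Bool) (y : Vec 8)
    (h6 : y 6 = a) (h7 : y 7 = -a) (i : Fin 8) (hi : 6 ≤ i.val) : LLE76_g m a v e i = y i := by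
  rcases LLE76_cases i with ⟨j, rfl⟩ | rfl | rfl
  · have : (Fin.castLE (by norm_num : 6 ≤ 8) j).val < 6 := j.2
    omega
  · rw [LLE76_g6, h6]
  · rw [LLE76_g7, h7]

theorem LLE76_sum (m : Fin 3 → ℤ) (a : ℤ) (v : Fin 6 → Fin 3) (e : Fin 6 → Bool) :
    ∑ i, LLE76_g m a v e i = ∑ j, (if e j then -1 else 1) * m (v j) := by
  have h1 : ∑ i, LLE76_g m a v e i = ∑ j : Fin 6, LLE76_g m a v e (Fin.castLE (by norm_num) j) +
      LLE76_g m a v e 6 + LLE76_g m a v e 7 := by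
    rw [Fin.sum_univ_eight, Fin.sum_univ_six]
    rfl
  rw [h1, LLE76_g6, LLE76_g7]
  simp only [LLE76_g_apply]
  ring

theorem LLE76_signs (e : Fin 6 → Bool) (he : e ∈ LLE76_E) :
    (∑ j : Fin 6, (if e j then (-1 : ℤ) else 1)) % 4 = 0 := by
  have h1 := (Finset.mem_filter.1 he).2
  rw [Finset.card_filter, Fin.sum_univ_six] at h1
  rw [Fin.sum_univ_six]
  have key : ∀ b : Bool, (if b then (-1 : ℤ) else 1) = 1 - 2 * ((if b = true then 1 else 0 : ℕ) : ℤ) := by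
    intro b
    cases b <;> simp
  rw [key, key, key, key, key, key]
  omega

theorem LLE76_EL_odd (a : ℤ) (ha : a % 2 = 1) (v : Fin 6 → Fin 3) (e : Fin 6 → Bool) (he : e ∈ LLE76_E) :
    LLE76_g ![1, -3, 5] a v e ∈ EL ∧ LLE76_g ![1, -3, 5] a v e 0 % 2 = 1 := by
  have hodd : ∀ i, LLE76_g ![1, -3, 5] a v e i % 2 = 1 := by
    intro i
    rcases LLE76_cases i with ⟨j, rfl⟩ | rfl | rfl
    · rw [LLE76_g_apply]
      have : ∀ (b : Bool) (t : Fin 3), ((if b then -1 else 1) * (![1, -3, 5] : Fin 3 → ℤ) t) % 2 = 1 := by decide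
      exact this (e j) (v j)
    · rw [LLE76_g6]
      exact ha
    · rw [LLE76_g7]
      omega
  refine ⟨⟨fun i j => by rw [hodd i, hodd j], ?_⟩, hodd 0⟩
  rw [LLE76_sum]
  have h1 : ∑ j, (if e j then -1 else 1) * (![1, -3, 5] : Fin 3 → ℤ) (v j) =
      ∑ j : Fin 6, (if e j then (-1 : ℤ) else 1) +
      ∑ j, (if e j then -1 else 1) * ((![1, -3, 5] : Fin 3 → ℤ) (v j) - 1) := by
    rw [← Finset.sum_add_distrib]
    refine Finset.sum_congr rfl fun j _ => ?_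
    ring
  have h2 : (4 : ℤ) ∣ ∑ j, (if e j then -1 else 1) * ((![1, -3, 5] : Fin 3 → ℤ) (v j) - 1) := by
    refine Finset.dvd_sum fun j _ => ?_
    have : ∀ (b : Bool) (t : Fin 3), (4 : ℤ) ∣ (if b then -1 else 1) * ((![1, -3, 5] : Fin 3 → ℤ) t - 1) := by decide
    exact this (e j) (v j)
  have h3 := LLE76_signs e he
  rw [h1]
  omega

theorem LLE76_m1 (hREP : REP_stmt) (hPRD : PRD_stmt) (hCLQ : CLQ_stmt) (v : Fin 6 → Fin 3)
    (hv : v ∈ LLE76_V ![3, 2, 1]) (e : Fin 6 → Bool) (he : e ∈ LLE76_E) :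
    LLE76_g ![1, -3, 5] 1 v e ∈ VE R7 6 := by
  have hy := LLE76_v1 hCLQ
  have hcN : ∀ w : ℤ, cN 6 (LLE76_g ![1, -3, 5] 1 v e) w = cN 6 LLE76_y1 w := by
    intro w
    rw [LLE76_cN_g _ _ _ v hv, LLE76_cN, Fin.sum_univ_three, Fin.sum_univ_six]
    change 3 * (if |(1 : ℤ)| = w then 1 else 0) + 2 * (if |(-3 : ℤ)| = w then 1 else 0) +
      1 * (if |(5 : ℤ)| = w then 1 else 0) = (if |(5 : ℤ)| = w then 1 else 0) +
      (if |(3 : ℤ)| = w then 1 else 0) + (if |(3 : ℤ)| = w then 1 else 0) +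
      (if |(1 : ℤ)| = w then 1 else 0) + (if |(1 : ℤ)| = w then 1 else 0) +
      (if |(-1 : ℤ)| = w then 1 else 0)
    rw [abs_neg, abs_neg]
    ring
  have hlast := LLE76_last ![1, -3, 5] 1 v e LLE76_y1 rfl rfl
  have hEL := LLE76_EL_odd 1 (by norm_num) v e he
  have hyEL : LLE76_y1 ∈ EL := by
    refine ⟨?_, ?_⟩ <;> decide
  exact (hREP 6 _ LLE76_y1).2.1 hlast hcN (hPRD.1 6 _ LLE76_y1 (Or.inr (Or.inl rfl)) hEL.1 hyEL hEL.2 hlast hcN) hy

theorem LLE76_m3 (hREP : REP_stmt) (hPRD : PRD_stmt) (hCLQ : CLQ_stmt) (v : Fin 6 → Fin 3)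
    (hv : v ∈ LLE76_V ![3, 3, 0]) (e : Fin 6 → Bool) (he : e ∈ LLE76_E) :
    LLE76_g ![1, -3, 5] 3 v e ∈ VE R7 6 := by
  have hy := LLE76_v3 hCLQ
  have hcN : ∀ w : ℤ, cN 6 (LLE76_g ![1, -3, 5] 3 v e) w = cN 6 LLE76_y3 w := by
    intro w
    rw [LLE76_cN_g _ _ _ v hv, LLE76_cN, Fin.sum_univ_three, Fin.sum_univ_six]
    change 3 * (if |(1 : ℤ)| = w then 1 else 0) + 3 * (if |(-3 : ℤ)| = w then 1 else 0) +
      0 * (if |(5 : ℤ)| = w then 1 else 0) = (if |(3 : ℤ)| = w then 1 else 0) +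
      (if |(3 : ℤ)| = w then 1 else 0) + (if |(3 : ℤ)| = w then 1 else 0) +
      (if |(1 : ℤ)| = w then 1 else 0) + (if |(1 : ℤ)| = w then 1 else 0) +
      (if |(1 : ℤ)| = w then 1 else 0)
    rw [abs_neg]
    ring
  have hlast := LLE76_last ![1, -3, 5] 3 v e LLE76_y3 rfl rfl
  have hEL := LLE76_EL_odd 3 (by norm_num) v e he
  have hyEL : LLE76_y3 ∈ EL := by
    refine ⟨?_, ?_⟩ <;> decide
  exact (hREP 6 _ LLE76_y3).2.1 hlast hcN (hPRD.1 6 _ LLE76_y3 (Or.inr (Or.inl rfl)) hEL.1 hyEL hEL.2 hlast hcN) hy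

theorem LLE76_m2 (hREP : REP_stmt) (hPRD : PRD_stmt) (hCLQ : CLQ_stmt) (v : Fin 6 → Fin 3)
    (hv : v ∈ LLE76_V ![2, 2, 2]) (e : Fin 6 → Bool) :
    LLE76_g ![0, 2, 4] 2 v e ∈ VE R7 6 := by
  have hy := LLE76_v2 hCLQ
  have hcN : ∀ w : ℤ, cN 6 (LLE76_g ![0, 2, 4] 2 v e) w = cN 6 LLE76_y2 w := by
    intro w
    rw [LLE76_cN_g _ _ _ v hv, LLE76_cN, Fin.sum_univ_three, Fin.sum_univ_six]
    change 2 * (if |(0 : ℤ)| = w then 1 else 0) + 2 * (if |(2 : ℤ)| = w then 1 else 0) +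
      2 * (if |(4 : ℤ)| = w then 1 else 0) = (if |(4 : ℤ)| = w then 1 else 0) +
      (if |(4 : ℤ)| = w then 1 else 0) + (if |(2 : ℤ)| = w then 1 else 0) +
      (if |(2 : ℤ)| = w then 1 else 0) + (if |(0 : ℤ)| = w then 1 else 0) +
      (if |(0 : ℤ)| = w then 1 else 0)
    ring
  have hlast := LLE76_last ![0, 2, 4] 2 v e LLE76_y2 rfl rfl
  have h0 : 0 < cN 6 (LLE76_g ![0, 2, 4] 2 v e) 0 := by
    rw [hcN]
    decide
  have hp := hPRD.2.1 6 _ LLE76_y2 hcN h0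
  exact (hREP 6 _ LLE76_y2).2.1 hlast hcN (by rw [hp.1, hp.2]) hy

theorem LLE76_inj_odd (a : ℤ) (v v' : Fin 6 → Fin 3) (e e' : Fin 6 → Bool)
    (h : LLE76_g ![1, -3, 5] a v e = LLE76_g ![1, -3, 5] a v' e') : v = v' ∧ e = e' := by
  have key : ∀ (b b' : Bool) (t t' : Fin 3), (if b then -1 else 1) * (![1, -3, 5] : Fin 3 → ℤ) t =
      (if b' then -1 else 1) * (![1, -3, 5] : Fin 3 → ℤ) t' → b = b' ∧ t = t' := by decide
  have h2 : ∀ j, e j = e' j ∧ v j = v' j := by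
    intro j
    have h3 := congrFun h (Fin.castLE (by norm_num) j)
    rw [LLE76_g_apply, LLE76_g_apply] at h3
    exact key _ _ _ _ h3
  exact ⟨funext fun j => (h2 j).2, funext fun j => (h2 j).1⟩

theorem LLE76_inj_even (a : ℤ) (v v' : Fin 6 → Fin 3) (e e' : Fin 6 → Bool)
    (he : ∀ j, v j = 0 → e j = false) (he' : ∀ j, v' j = 0 → e' j = false)
    (h : LLE76_g ![0, 2, 4] a v e = LLE76_g ![0, 2, 4] a v' e') : v = v' ∧ e = e' := by
  have key : ∀ (b b' : Bool) (t t' : Fin 3), (t = 0 → b = false) → (t' = 0 → b' = false) →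
      (if b then -1 else 1) * (![0, 2, 4] : Fin 3 → ℤ) t =
      (if b' then -1 else 1) * (![0, 2, 4] : Fin 3 → ℤ) t' → b = b' ∧ t = t' := by decide
  have h2 : ∀ j, e j = e' j ∧ v j = v' j := by
    intro j
    have h3 := congrFun h (Fin.castLE (by norm_num) j)
    rw [LLE76_g_apply, LLE76_g_apply] at h3
    exact key _ _ _ _ (he j) (he' j) h3
  exact ⟨funext fun j => (h2 j).2, funext fun j => (h2 j).1⟩

/-- the signs for the second set -/
def LLE76_S (v : Fin 6 → Fin 3) : Finset (Fin 6 → Bool) :=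
  Fintype.piFinset (fun j => if v j = 0 then {false} else univ)

theorem LLE76_memS (v : Fin 6 → Fin 3) (e : Fin 6 → Bool) (he : e ∈ LLE76_S v) : ∀ j, v j = 0 → e j = false := by
  intro j hj
  rw [LLE76_S, Fintype.mem_piFinset] at he
  have := he j
  rw [if_pos hj, Finset.mem_singleton] at this
  exact this

theorem LLE76_card2' (V : Finset (Fin 6 → Fin 3)) (hV : V.card = 90)
    (hp : ∀ v ∈ V, ∏ j : Fin 6, (if v j = 0 then 1 else 2) = 16) :
    ((V.sigma LLE76_S).image (fun p => LLE76_g ![0, 2, 4] 2 p.1 p.2)).card = 1440 := by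
  rw [Finset.card_image_of_injOn, Finset.card_sigma]
  · have h1 : ∀ v ∈ V, (LLE76_S v).card = 16 := by
      intro v hv
      rw [LLE76_S, Fintype.card_piFinset, ← hp v hv]
      refine Finset.prod_congr rfl fun j _ => ?_
      split_ifs <;> rfl
    rw [Finset.sum_congr rfl h1, Finset.sum_const, hV, smul_eq_mul]
  · rintro ⟨v, e⟩ hp ⟨v', e'⟩ hp' h
    rw [Finset.mem_coe, Finset.mem_sigma] at hp hp'
    obtain ⟨h1, h2⟩ := LLE76_inj_even 2 v v' e e' (LLE76_memS v e hp.2) (LLE76_memS v' e' hp'.2) h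
    rw [h1, h2]

theorem LLE76_final (W : Set (Vec 8)) (hfin : W.Finite) (hneg : ∀ x, x ∈ W → -x ∈ W)
    (B1 B2 B3 : Finset (Vec 8)) (hm1 : ∀ x ∈ B1, x ∈ W ∧ x 6 = 1) (hm2 : ∀ x ∈ B2, x ∈ W ∧ x 6 = 2)
    (hm3 : ∀ x ∈ B3, x ∈ W ∧ x 6 = 3) (c1 : B1.card = 1920) (c2 : B2.card = 1440) (c3 : B3.card = 640) :
    7560 < W.ncard := by
  set B : Finset (Vec 8) := (B1 ∪ B2) ∪ B3 with hB
  have hBm : ∀ x ∈ B, x ∈ W ∧ 0 < x 6 := by
    intro x hx
    rw [hB, Finset.mem_union, Finset.mem_union] at hx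
    rcases hx with (hx | hx) | hx
    · have := hm1 x hx
      exact ⟨this.1, by rw [this.2]; norm_num⟩
    · have := hm2 x hx
      exact ⟨this.1, by rw [this.2]; norm_num⟩
    · have := hm3 x hx
      exact ⟨this.1, by rw [this.2]; norm_num⟩
  have hBc : B.card = 4000 := by
    rw [hB, Finset.card_union_of_disjoint, Finset.card_union_of_disjoint, c1, c2, c3]
    · rw [Finset.disjoint_left]
      intro x h1 h2
      have e1 := (hm1 x h1).2
      have e2 := (hm2 x h2).2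
      omega
    · rw [Finset.disjoint_left]
      intro x h1 h2
      have e2 := (hm3 x h2).2
      rcases Finset.mem_union.1 h1 with h1 | h1
      · have e1 := (hm1 x h1).2
        omega
      · have e1 := (hm2 x h1).2
        omega
  have hBn : (B.image (fun x => -x)).card = 4000 := by
    rw [Finset.card_image_of_injective _ neg_injective, hBc]
  have hdis : Disjoint B (B.image (fun x => -x)) := by
    rw [Finset.disjoint_left]
    intro x h1 h2
    obtain ⟨y, hy, rfl⟩ := Finset.mem_image.1 h2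
    have e1 := (hBm _ h1).2
    have e2 := (hBm _ hy).2
    rw [Pi.neg_apply] at e1
    omega
  have hsub : ((B ∪ B.image (fun x => -x) : Finset (Vec 8)) : Set (Vec 8)) ⊆ W := by
    intro x hx
    rw [Finset.mem_coe, Finset.mem_union] at hx
    rcases hx with hx | hx
    · exact (hBm x hx).1
    · obtain ⟨y, hy, rfl⟩ := Finset.mem_image.1 hx
      exact hneg y (hBm y hy).1
  have h1 := Set.ncard_le_ncard hsub hfin
  rw [Set.ncard_coe_finset, Finset.card_union_of_disjoint hdis, hBc, hBn] at h1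
  have h2 : 7560 < 4000 + 4000 := by norm_num
  exact lt_of_lt_of_le h2 h1

theorem LLE76_fin (hELB : ELB_stmt) : (VE R7 6).Finite := by
  refine (Set.finite_Icc (fun _ : Fin 8 => (-48 : ℤ)) (fun _ => (48 : ℤ))).subset ?_
  intro x hx
  have h1 : dp x x = 8 * ((6 : ℕ) : ℤ) := ((hELB.2.2.1 6 x).2.1 hx).2.2
  have h2 : ∀ i, x i * x i ≤ 48 := by
    intro i
    have h3 : x i * x i ≤ ∑ i, x i * x i :=
      Finset.single_le_sum (f := fun i => x i * x i) (fun i _ => mul_self_nonneg _) (Finset.mem_univ i)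
    have h4 : ∑ i, x i * x i = 8 * ((6 : ℕ) : ℤ) := h1
    rw [h4] at h3
    exact h3
  rw [Set.mem_Icc, Pi.le_def, Pi.le_def]
  exact ⟨fun i => by nlinarith [h2 i], fun i => by nlinarith [h2 i]⟩

theorem LLE76_mem1 (W : Set (Vec 8)) (V : Finset (Fin 6 → Fin 3)) (E : Finset (Fin 6 → Bool)) (m : Fin 3 → ℤ) (a : ℤ)
    (h : ∀ v ∈ V, ∀ e ∈ E, LLE76_g m a v e ∈ W) :
    ∀ x ∈ (V ×ˢ E).image (fun p => LLE76_g m a p.1 p.2), x ∈ W ∧ x 6 = a := by
  intro x hx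
  rw [Finset.mem_image] at hx
  obtain ⟨p, hp, hpx⟩ := hx
  rw [Finset.mem_product] at hp
  rw [← hpx]
  exact ⟨h p.1 hp.1 p.2 hp.2, LLE76_g6 _ _ _ _⟩

theorem LLE76_mem2 (W : Set (Vec 8)) (V : Finset (Fin 6 → Fin 3)) (m : Fin 3 → ℤ) (a : ℤ)
    (h : ∀ v ∈ V, ∀ e, LLE76_g m a v e ∈ W) :
    ∀ x ∈ (V.sigma LLE76_S).image (fun p => LLE76_g m a p.1 p.2), x ∈ W ∧ x 6 = a := by
  intro x hx
  rw [Finset.mem_image] at hx
  obtain ⟨p, hp, hpx⟩ := hx
  rw [Finset.mem_sigma] at hp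
  rw [← hpx]
  exact ⟨h p.1 hp.1 p.2, LLE76_g6 _ _ _ _⟩

/-- the map `Fin 6 → Fin 3` with the code `n < 729` -/
def LLE76n_v (n : ℕ) : Fin 6 → Fin 3 := fun j => ⟨n / 3 ^ j.val % 3, Nat.mod_lt _ (by norm_num)⟩

/-- number of digits `t` of `n` -/
def LLE76n_c (n t : ℕ) : ℕ :=
  (if n % 3 = t then 1 else 0) + (if n / 3 % 3 = t then 1 else 0) + (if n / 9 % 3 = t then 1 else 0) +
  (if n / 27 % 3 = t then 1 else 0) + (if n / 81 % 3 = t then 1 else 0) + (if n / 243 % 3 = t then 1 else 0)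

/-- the codes with given numbers of digits -/
def LLE76n_L (a b c : ℕ) : List ℕ := (List.range 729).filter fun n =>
  Nat.beq (LLE76n_c n 0) a && Nat.beq (LLE76n_c n 1) b && Nat.beq (LLE76n_c n 2) c

theorem LLE76n_len1 : (LLE76n_L 3 2 1).length = 60 := by decide +kernel
theorem LLE76n_len2 : (LLE76n_L 2 2 2).length = 90 := by decide +kernel
theorem LLE76n_len3 : (LLE76n_L 3 3 0).length = 20 := by decide +kernel

theorem LLE76n_fib (n : ℕ) (t : Fin 3) : (univ.filter fun j => LLE76n_v n j = t).card = LLE76n_c n t.val := by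
  rw [Finset.card_filter, Fin.sum_univ_six]
  unfold LLE76n_v LLE76n_c
  simp [Fin.ext_iff]

theorem LLE76n_inj (n m : ℕ) (hn : n < 729) (hm : m < 729) (h : LLE76n_v n = LLE76n_v m) : n = m := by
  have h0 := congrArg Fin.val (congrFun h 0)
  have h1 := congrArg Fin.val (congrFun h 1)
  have h2 := congrArg Fin.val (congrFun h 2)
  have h3 := congrArg Fin.val (congrFun h 3)
  have h4 := congrArg Fin.val (congrFun h 4)
  have h5 := congrArg Fin.val (congrFun h 5)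
  unfold LLE76n_v at h0 h1 h2 h3 h4 h5
  change n / 3 ^ 0 % 3 = m / 3 ^ 0 % 3 at h0
  change n / 3 ^ 1 % 3 = m / 3 ^ 1 % 3 at h1
  change n / 3 ^ 2 % 3 = m / 3 ^ 2 % 3 at h2
  change n / 3 ^ 3 % 3 = m / 3 ^ 3 % 3 at h3
  change n / 3 ^ 4 % 3 = m / 3 ^ 4 % 3 at h4
  change n / 3 ^ 5 % 3 = m / 3 ^ 5 % 3 at h5
  omega

/-- the maps with given fibre sizes -/
def LLE76n_W (a b c : ℕ) : Finset (Fin 6 → Fin 3) := (LLE76n_L a b c).toFinset.image LLE76n_v

theorem LLE76n_cardW (a b c : ℕ) : (LLE76n_W a b c).card = (LLE76n_L a b c).length := by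
  unfold LLE76n_W
  rw [Finset.card_image_of_injOn, List.toFinset_card_of_nodup]
  · exact List.Nodup.filter _ List.nodup_range
  · intro n hn m hm h
    rw [Finset.mem_coe, List.mem_toFinset] at hn hm
    unfold LLE76n_L at hn hm
    exact LLE76n_inj n m (List.mem_range.1 (List.mem_filter.1 hn).1) (List.mem_range.1 (List.mem_filter.1 hm).1) h

theorem LLE76n_sub (a b c : ℕ) : ∀ v ∈ LLE76n_W a b c, v ∈ LLE76_V ![a, b, c] := by
  intro v hv
  unfold LLE76n_W at hv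
  obtain ⟨n, hn, rfl⟩ := Finset.mem_image.1 hv
  rw [List.mem_toFinset] at hn
  unfold LLE76n_L at hn
  have h1 := (List.mem_filter.1 hn).2
  rw [Bool.and_eq_true, Bool.and_eq_true] at h1
  obtain ⟨⟨h1, h2⟩, h3⟩ := h1
  have e1 := Nat.eq_of_beq_eq_true h1
  have e2 := Nat.eq_of_beq_eq_true h2
  have e3 := Nat.eq_of_beq_eq_true h3
  unfold LLE76_V
  refine Finset.mem_filter.2 ⟨Finset.mem_univ _, fun t => ?_⟩
  rw [LLE76n_fib]
  fin_cases t
  · exact e1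
  · exact e2
  · exact e3

/-- the signs with the code `n < 32`, the last one by parity -/
def LLE76n_e (n : ℕ) : Fin 6 → Bool := fun j =>
  if j.val < 5 then Nat.beq (n / 2 ^ j.val % 2) 1
  else Nat.beq ((n % 2 + n / 2 % 2 + n / 4 % 2 + n / 8 % 2 + n / 16 % 2) % 2) 0

theorem LLE76n_einj (n m : ℕ) (hn : n < 32) (hm : m < 32) (h : LLE76n_e n = LLE76n_e m) : n = m := by
  have key : ∀ a b : ℕ, Nat.beq (a % 2) 1 = Nat.beq (b % 2) 1 → a % 2 = b % 2 := by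
    intro a b hab
    by_cases ha : a % 2 = 1
    · rw [ha] at hab
      have : Nat.beq (b % 2) 1 = true := by rw [← hab]; rfl
      have := Nat.eq_of_beq_eq_true this
      omega
    · by_cases hb : b % 2 = 1
      · rw [hb] at hab
        have : Nat.beq (a % 2) 1 = true := by rw [hab]; rfl
        have := Nat.eq_of_beq_eq_true this
        omega
      · omega
  have h0 := key _ _ (congrFun h 0)
  have h1 := key _ _ (congrFun h 1)
  have h2 := key _ _ (congrFun h 2)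
  have h3 := key _ _ (congrFun h 3)
  have h4 := key _ _ (congrFun h 4)
  change n / 2 ^ 0 % 2 = m / 2 ^ 0 % 2 at h0
  change n / 2 ^ 1 % 2 = m / 2 ^ 1 % 2 at h1
  change n / 2 ^ 2 % 2 = m / 2 ^ 2 % 2 at h2
  change n / 2 ^ 3 % 2 = m / 2 ^ 3 % 2 at h3
  change n / 2 ^ 4 % 2 = m / 2 ^ 4 % 2 at h4
  omega

/-- sign patterns with an odd number of signs `-1` -/
def LLE76n_E : Finset (Fin 6 → Bool) := (Finset.range 32).image LLE76n_e

theorem LLE76n_cardE : LLE76n_E.card = 32 := by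
  unfold LLE76n_E
  rw [Finset.card_image_of_injOn, Finset.card_range]
  intro n hn m hm h
  rw [Finset.mem_coe, Finset.mem_range] at hn hm
  exact LLE76n_einj n m hn hm h

theorem LLE76n_odd (n : ℕ) : (univ.filter fun j => LLE76n_e n j = true).card % 2 = 1 := by
  rw [Finset.card_filter, Fin.sum_univ_six]
  have key : ∀ a : ℕ, (if Nat.beq (a % 2) 1 = true then 1 else 0) = a % 2 := by
    intro a
    by_cases ha : a % 2 = 1
    · rw [ha]; rfl
    · have ha' : a % 2 = 0 := by omega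
      rw [ha']; rfl
  have key0 : ∀ a : ℕ, (if Nat.beq (a % 2) 0 = true then 1 else 0) = 1 - a % 2 := by
    intro a
    by_cases ha : a % 2 = 1
    · rw [ha]; rfl
    · have ha' : a % 2 = 0 := by omega
      rw [ha']; rfl
  have h0 : (if LLE76n_e n 0 = true then 1 else 0) = n / 2 ^ 0 % 2 := key (n / 2 ^ 0)
  rw [pow_zero, Nat.div_one] at h0
  have h1 : (if LLE76n_e n 1 = true then 1 else 0) = n / 2 % 2 := key (n / 2 ^ 1)
  have h2 : (if LLE76n_e n 2 = true then 1 else 0) = n / 4 % 2 := key (n / 2 ^ 2)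
  have h3 : (if LLE76n_e n 3 = true then 1 else 0) = n / 8 % 2 := key (n / 2 ^ 3)
  have h4 : (if LLE76n_e n 4 = true then 1 else 0) = n / 16 % 2 := key (n / 2 ^ 4)
  have h5 : (if LLE76n_e n 5 = true then 1 else 0) =
      1 - (n % 2 + n / 2 % 2 + n / 4 % 2 + n / 8 % 2 + n / 16 % 2) % 2 := key0 _
  rw [h0, h1, h2, h3, h4, h5]
  omega

theorem LLE76n_subE : ∀ e ∈ LLE76n_E, e ∈ LLE76_E := by
  intro e he
  unfold LLE76n_E at he
  obtain ⟨n, _, rfl⟩ := Finset.mem_image.1 he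
  unfold LLE76_E
  exact Finset.mem_filter.2 ⟨Finset.mem_univ _, LLE76n_odd n⟩

theorem LLE76n_prod : ∀ v ∈ LLE76n_W 2 2 2, ∏ j : Fin 6, (if v j = 0 then 1 else 2) = 16 := by
  intro v hv
  have h1 := (Finset.mem_filter.1 (LLE76n_sub 2 2 2 v hv)).2 0
  have h2 : (univ.filter fun j => v j = 0).card = 2 := h1
  rw [Finset.prod_ite, Finset.prod_const_one, one_mul, Finset.prod_const]
  have h3 := Finset.card_filter_add_card_filter_not (s := (univ : Finset (Fin 6))) (fun j => v j = 0)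
  rw [h2, Finset.card_univ, Fintype.card_fin] at h3
  have h4 : (univ.filter fun j => ¬ v j = 0).card = 4 := by omega
  rw [h4]
  norm_num

theorem LLE76n_card (a b c k : ℕ) (s : ℤ) (hk : (LLE76n_L a b c).length = k) :
    (((LLE76n_W a b c) ×ˢ LLE76n_E).image (fun p => LLE76_g ![1, -3, 5] s p.1 p.2)).card = k * 32 := by
  rw [Finset.card_image_of_injOn, Finset.card_product, LLE76n_cardW, hk, LLE76n_cardE]
  rintro ⟨v, e⟩ _ ⟨v', e'⟩ _ h
  obtain ⟨h1, h2⟩ := LLE76_inj_odd s v v' e e' h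
  rw [h1, h2]

theorem LLE76n_c1 : (((LLE76n_W 3 2 1) ×ˢ LLE76n_E).image (fun p => LLE76_g ![1, -3, 5] 1 p.1 p.2)).card = 1920 := by
  rw [LLE76n_card 3 2 1 60 1 LLE76n_len1]

theorem LLE76n_c3 : (((LLE76n_W 3 3 0) ×ˢ LLE76n_E).image (fun p => LLE76_g ![1, -3, 5] 3 p.1 p.2)).card = 640 := by
  rw [LLE76n_card 3 3 0 20 3 LLE76n_len3]

theorem LLE76n_c2 : (((LLE76n_W 2 2 2).sigma LLE76_S).image (fun p => LLE76_g ![0, 2, 4] 2 p.1 p.2)).card = 1440 := by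
  refine LLE76_card2' _ ?_ LLE76n_prod
  rw [LLE76n_cardW, LLE76n_len2]

/-- LE76, light version. -/
theorem LE76L (hREP : REP_stmt) (_hCTE : CTE_stmt) (hPRD : PRD_stmt) (hCLQ : CLQ_stmt) (hELB : ELB_stmt) :
    LE76_stmt := by
  have h1 := LLE76_mem1 (VE R7 6) (LLE76n_W 3 2 1) LLE76n_E ![1, -3, 5] 1
    (fun v hv e he => LLE76_m1 hREP hPRD hCLQ v (LLE76n_sub 3 2 1 v hv) e (LLE76n_subE e he))
  have h2 := LLE76_mem2 (VE R7 6) (LLE76n_W 2 2 2) ![0, 2, 4] 2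
    (fun v hv e => LLE76_m2 hREP hPRD hCLQ v (LLE76n_sub 2 2 2 v hv) e)
  have h3 := LLE76_mem1 (VE R7 6) (LLE76n_W 3 3 0) LLE76n_E ![1, -3, 5] 3
    (fun v hv e he => LLE76_m3 hREP hPRD hCLQ v (LLE76n_sub 3 3 0 v hv) e (LLE76n_subE e he))
  exact LLE76_final (VE R7 6) (LLE76_fin hELB) (fun x hx => (hELB.2.2.2.1 6 x).2.1 hx) _ _ _ h1 h2 h3
    LLE76n_c1 LLE76n_c2 LLE76n_c3

end Pool.Agent.SOL
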